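import Pool.Agent.E8helper20.CTL3.StmD
import Pool.Agent.E8helper51.CTK3.Box3
import Pool.Agent.Y170.XL.BOX

/-!
# Project CTL3, part L1 (helper56): the count in a box for every rank, with the vertex `3`

Adapted from `Pool/Agent/R419/KL/Box.lean` and `Pool/Agent/E8helper51/CTK3/Box3.lean`.
-/

set_option autoImplicit false

open scoped Classical

namespace Pool.Agent.E8helper56.CTL3

open Finset
open Pool.Agent.Y692.QS (Ei)
open Pool.Agent.Y715.T.Rec (cs)
open Pool.Agent.Y715.T.RecG (Pq)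
open Pool.Agent.Y703.XK (prs HB S_EQ)
open Pool.Agent.Y703.XL (nA cr)
open Pool.Agent.Y688.XK (cs_symm ext_sum HB_sub)
open Pool.Agent.Y170.XL (em em_bij fe fe_one fe_two sum_em)
open Pool.Agent.R419.KF (wt wt_one wt_ne)
open Pool.Agent.E8helper20.CTK3 (Nd3)
open Pool.Agent.E8helper20.CTL3 (nS3 Gr3 BoxP S_BOXL)
open Pool.Agent.E8helper51.CTK3 (lb3 wo wo_ne AA LN3 ext_symm sum_lap nd3_iff)

section one
variable {ι : Type} [Fintype ι] [LinearOrder ι] {M S₀ : Finset Ei} {p : ι → Ei}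

/-- the system with the value `0` at the vertex `3` -/
def YY (M S₀ : Finset Ei) (p : ι → Ei) (c : S₀ → ZMod 3) (d : ι → ZMod 3) : Prop :=
  (∀ u : S₀, ∑ v : S₀, wt M u * wt M v * cs u v * (c v - c u) + wt M u * cs u 3 * (0 - c u) +
    ∑ l, wt M u * cs u (p l) * (d l - c u) = 0) ∧
  (∀ k : ι, ∑ u : S₀, wt M u * cs u (p k) * (c u - d k) + cs (p k) 3 * (0 - d k) +
    ∑ l, Pool.Agent.Y703.XK.ext (fun e : prs ι => cs (p e.1.1) (p e.1.2)) k l *
      (d l - d k) = 0)

theorem sol_iff (hM : M ⊆ S₀) (hp : Function.Injective p) (hpr : ∀ i, Pq (p i))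
    (hS₀ : ∀ u ∈ S₀, Pq u) (hd : ∀ i, p i ∉ S₀) (v : ↥(S₀ ∪ univ.image p) → ZMod 3) :
    (∀ π : ↥(S₀ ∪ univ.image p), ∑ ρ : ↥(S₀ ∪ univ.image p), wt M ρ * cs π ρ * (v ρ - v π) =
      cs π 3 * v π) ↔
    YY M S₀ p (fun u => v (em S₀ p (Sum.inl u))) (fun l => v (em S₀ p (Sum.inr l))) := by
  have hw : ∀ i, wt M (em S₀ p (Sum.inr i) : Ei) = 1 := fun i => wt_one fun h => hd i (hM h)
  have hsym : ∀ k : ι, ∑ u : S₀, wt M u * cs (p k) u *
      (v (em S₀ p (Sum.inl u)) - v (em S₀ p (Sum.inr k))) =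
      ∑ u : S₀, wt M u * cs u (p k) *
        (v (em S₀ p (Sum.inl u)) - v (em S₀ p (Sum.inr k))) := by
    intro k
    refine Finset.sum_congr rfl fun u _ => ?_
    rw [cs_symm (hpr k) (hS₀ u u.2)]
  have hext := fun k => ext_sum hpr k (fun l => v (em S₀ p (Sum.inr l)))
  -- the rows
  have hrow1 : ∀ u : S₀, ∑ ρ : ↥(S₀ ∪ univ.image p), wt M ρ * cs u ρ *
      (v ρ - v (em S₀ p (Sum.inl u))) =
      ∑ w : S₀, wt M w * cs u w * (v (em S₀ p (Sum.inl w)) - v (em S₀ p (Sum.inl u))) +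
      ∑ l, cs u (p l) * (v (em S₀ p (Sum.inr l)) - v (em S₀ p (Sum.inl u))) := by
    intro u
    rw [sum_em hp hd]
    congr 1
    refine Finset.sum_congr rfl fun l _ => ?_
    rw [hw, one_mul]
    rfl
  have hrow2 : ∀ k : ι, ∑ ρ : ↥(S₀ ∪ univ.image p), wt M ρ * cs (p k) ρ *
      (v ρ - v (em S₀ p (Sum.inr k))) =
      ∑ w : S₀, wt M w * cs (p k) w * (v (em S₀ p (Sum.inl w)) - v (em S₀ p (Sum.inr k))) +
      ∑ l, cs (p k) (p l) * (v (em S₀ p (Sum.inr l)) - v (em S₀ p (Sum.inr k))) := by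
    intro k
    rw [sum_em hp hd]
    congr 1
    refine Finset.sum_congr rfl fun l _ => ?_
    rw [hw, one_mul]
    rfl
  have hmul : ∀ u : S₀, ∑ w : S₀, wt M u * wt M w * cs u w *
      (v (em S₀ p (Sum.inl w)) - v (em S₀ p (Sum.inl u))) +
      wt M u * cs u 3 * (0 - v (em S₀ p (Sum.inl u))) +
      ∑ l, wt M u * cs u (p l) * (v (em S₀ p (Sum.inr l)) - v (em S₀ p (Sum.inl u))) =
      wt M u * ((∑ w : S₀, wt M w * cs u w *
        (v (em S₀ p (Sum.inl w)) - v (em S₀ p (Sum.inl u))) +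
      ∑ l, cs u (p l) * (v (em S₀ p (Sum.inr l)) - v (em S₀ p (Sum.inl u)))) -
        cs u 3 * v (em S₀ p (Sum.inl u))) := by
    intro u
    have a1 : ∑ w : S₀, wt M u * wt M w * cs u w *
        (v (em S₀ p (Sum.inl w)) - v (em S₀ p (Sum.inl u))) =
        wt M u * ∑ w : S₀, wt M w * cs u w *
        (v (em S₀ p (Sum.inl w)) - v (em S₀ p (Sum.inl u))) := by
      rw [Finset.mul_sum]
      exact Finset.sum_congr rfl fun v _ => by ring
    have a2 : ∑ l, wt M u * cs u (p l) * (v (em S₀ p (Sum.inr l)) - v (em S₀ p (Sum.inl u))) =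
        wt M u * ∑ l, cs u (p l) * (v (em S₀ p (Sum.inr l)) - v (em S₀ p (Sum.inl u))) := by
      rw [Finset.mul_sum]
      exact Finset.sum_congr rfl fun v _ => by ring
    rw [a1, a2]
    ring
  constructor
  · intro h
    refine ⟨fun u => ?_, fun k => ?_⟩
    · have h1 := (hrow1 u).symm.trans (h (em S₀ p (Sum.inl u)))
      refine (hmul u).trans ?_
      rw [h1]
      change wt M u * (cs u 3 * v (em S₀ p (Sum.inl u)) - cs u 3 * v (em S₀ p (Sum.inl u))) = 0
      rw [sub_self, mul_zero]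
    · have h2 := (hrow2 k).symm.trans (h (em S₀ p (Sum.inr k)))
      rw [hsym, ← hext k] at h2
      have h3 : ∑ u : S₀, wt M u * cs u (p k) *
          (v (em S₀ p (Sum.inl u)) - v (em S₀ p (Sum.inr k))) +
          ∑ l, Pool.Agent.Y703.XK.ext (fun e : prs ι => cs (p e.1.1) (p e.1.2)) k l *
          (v (em S₀ p (Sum.inr l)) - v (em S₀ p (Sum.inr k))) =
          cs (p k) 3 * v (em S₀ p (Sum.inr k)) := h2
      change ∑ u : S₀, wt M u * cs u (p k) *
          (v (em S₀ p (Sum.inl u)) - v (em S₀ p (Sum.inr k))) +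
          cs (p k) 3 * (0 - v (em S₀ p (Sum.inr k))) +
          ∑ l, Pool.Agent.Y703.XK.ext (fun e : prs ι => cs (p e.1.1) (p e.1.2)) k l *
          (v (em S₀ p (Sum.inr l)) - v (em S₀ p (Sum.inr k))) = 0
      linear_combination h3
  · rintro ⟨h1, h2⟩ x
    obtain ⟨y, rfl⟩ := (em_bij hp hd).2 x
    rcases y with u | k
    · refine (hrow1 u).trans ?_
      have h3 := (hmul u).symm.trans (h1 u)
      exact sub_eq_zero.1 ((mul_eq_zero.1 h3).resolve_left (wt_ne M _))
    · have h3 : ∑ u : S₀, wt M u * cs u (p k) *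
          (v (em S₀ p (Sum.inl u)) - v (em S₀ p (Sum.inr k))) +
          cs (p k) 3 * (0 - v (em S₀ p (Sum.inr k))) +
        ∑ l, Pool.Agent.Y703.XK.ext (fun e : prs ι => cs (p e.1.1) (p e.1.2)) k l *
          (v (em S₀ p (Sum.inr l)) - v (em S₀ p (Sum.inr k))) = 0 := h2 k
      rw [hext k, ← hsym] at h3
      refine (hrow2 k).trans ?_
      change _ = cs (p k) 3 * v (em S₀ p (Sum.inr k))
      linear_combination h3

/-- the block system with the vertex `3` -/
theorem sys_iff (hS₀ : ∀ u ∈ S₀, Pq u) (t : ZMod 3) (c : S₀ → ZMod 3) (d : ι → ZMod 3)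
    (a : Option S₀ → ZMod 3) (b : ι → ZMod 3) (ha0 : a none = t)
    (ha : ∀ u, a (some u) = c u + t) (hb : ∀ l, b l = d l + t) :
    ((∀ u, ∑ v, AA M S₀ u v * (a v - a u) +
        ∑ l, wo M S₀ u * lb3 S₀ (p l) u * (b l - a u) = 0) ∧
      (∀ k, ∑ u, wo M S₀ u * lb3 S₀ (p k) u * (a u - b k) +
        ∑ l, Pool.Agent.Y703.XK.ext (fun e : prs ι => cs (p e.1.1) (p e.1.2)) k l *
          (b l - b k) = 0)) ↔ YY M S₀ p c d := by
  have r1 : ∀ u : S₀, ∑ v, AA M S₀ (some u) v * (a v - a (some u)) +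
        ∑ l, wo M S₀ (some u) * lb3 S₀ (p l) (some u) * (b l - a (some u)) =
      ∑ v : S₀, wt M u * wt M v * cs u v * (c v - c u) + wt M u * cs u 3 * (0 - c u) +
        ∑ l, wt M u * cs u (p l) * (d l - c u) := by
    intro u
    rw [Fintype.sum_option]
    simp only [AA, wo, lb3, ha0, ha, hb, add_sub_add_right_eq_sub]
    ring
  have r2 : ∀ k : ι, ∑ u, wo M S₀ u * lb3 S₀ (p k) u * (a u - b k) +
        ∑ l, Pool.Agent.Y703.XK.ext (fun e : prs ι => cs (p e.1.1) (p e.1.2)) k l *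
          (b l - b k) =
      ∑ u : S₀, wt M u * cs u (p k) * (c u - d k) + cs (p k) 3 * (0 - d k) +
      ∑ l, Pool.Agent.Y703.XK.ext (fun e : prs ι => cs (p e.1.1) (p e.1.2)) k l *
        (d l - d k) := by
    intro k
    rw [Fintype.sum_option]
    simp only [wo, lb3, ha0, ha, hb, add_sub_add_right_eq_sub]
    ring
  constructor
  · rintro ⟨h1, h2⟩
    exact ⟨fun u => (r1 u).symm.trans (h1 (some u)), fun k => (r2 k).symm.trans (h2 k)⟩
  · rintro ⟨h1, h2⟩
    have q1 : ∀ u : S₀, ∑ v, AA M S₀ (some u) v * (a v - a (some u)) +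
        ∑ l, wo M S₀ (some u) * lb3 S₀ (p l) (some u) * (b l - a (some u)) = 0 :=
      fun u => (r1 u).trans (h1 u)
    have q2 : ∀ k : ι, ∑ u, wo M S₀ u * lb3 S₀ (p k) u * (a u - b k) +
        ∑ l, Pool.Agent.Y703.XK.ext (fun e : prs ι => cs (p e.1.1) (p e.1.2)) k l *
          (b l - b k) = 0 := fun k => (r2 k).trans (h2 k)
    have q3 : ∑ v, AA M S₀ none v * (a v - a none) +
        ∑ l, wo M S₀ none * lb3 S₀ (p l) none * (b l - a none) = 0 := by
      have s1 := sum_lap (AA M S₀) (by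
        intro k l
        rcases k with _ | u <;> rcases l with _ | v
        · rfl
        · rfl
        · rfl
        · simp only [AA]
          rw [cs_symm (hS₀ u u.2) (hS₀ v v.2)]
          ring) a
      have s2 := sum_lap (Pool.Agent.Y703.XK.ext (fun e : prs ι => cs (p e.1.1) (p e.1.2)))
        (ext_symm _) b
      have s3 : ∑ u, ∑ l, wo M S₀ u * lb3 S₀ (p l) u * (b l - a u) +
          ∑ k, ∑ u, wo M S₀ u * lb3 S₀ (p k) u * (a u - b k) = 0 := by
        rw [Finset.sum_comm, ← Finset.sum_add_distrib]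
        refine Finset.sum_eq_zero fun k _ => ?_
        rw [← Finset.sum_add_distrib]
        refine Finset.sum_eq_zero fun u _ => ?_
        ring
      have s4 : ∑ k, (∑ u, wo M S₀ u * lb3 S₀ (p k) u * (a u - b k) +
        ∑ l, Pool.Agent.Y703.XK.ext (fun e : prs ι => cs (p e.1.1) (p e.1.2)) k l *
          (b l - b k)) = 0 := Finset.sum_eq_zero fun k _ => q2 k
      have s5 : ∑ u : S₀, (∑ v, AA M S₀ (some u) v * (a v - a (some u)) +
        ∑ l, wo M S₀ (some u) * lb3 S₀ (p l) (some u) * (b l - a (some u))) = 0 :=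
        Finset.sum_eq_zero fun u _ => q1 u
      rw [Fintype.sum_option] at s1
      rw [Fintype.sum_option] at s3
      rw [Finset.sum_add_distrib] at s4 s5
      rw [s2, add_zero] at s4
      rw [s4, add_zero] at s3
      linear_combination s1 + s3 - s5
    refine ⟨fun u => ?_, q2⟩
    rcases u with _ | u
    · exact q3
    · exact q1 u

/-- the functions on all the vertices -/
noncomputable def fo (hp : Function.Injective p) (hd : ∀ i, p i ∉ S₀) :
    (ZMod 3 × (↥(S₀ ∪ univ.image p) → ZMod 3)) ≃ (Option S₀ → ZMod 3) × (ι → ZMod 3) where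
  toFun y := (fun o => match o with
    | none => y.1
    | some u => (fe hp hd y.2).1 u + y.1, fun l => (fe hp hd y.2).2 l + y.1)
  invFun x := (x.1 none, (fe hp hd).symm (fun u => x.1 (some u) - x.1 none, fun l => x.2 l - x.1 none))
  left_inv y := by
    refine Prod.ext rfl ?_
    change (fe hp hd).symm (fun u => (fe hp hd y.2).1 u + y.1 - y.1,
      fun l => (fe hp hd y.2).2 l + y.1 - y.1) = y.2
    simp only [add_sub_cancel_right]
    exact (fe hp hd).symm_apply_apply y.2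
  right_inv x := by
    refine Prod.ext (funext fun o => ?_) (funext fun l => ?_)
    · rcases o with _ | u
      · rfl
      · change (fe hp hd ((fe hp hd).symm _)).1 u + x.1 none = x.1 (some u)
        rw [(fe hp hd).apply_symm_apply]
        exact sub_add_cancel _ _
    · change (fe hp hd ((fe hp hd).symm _)).2 l + x.1 none = x.2 l
      rw [(fe hp hd).apply_symm_apply]
      exact sub_add_cancel _ _

/-- **the numbers of solutions** -/
theorem nA_eq (hM : M ⊆ S₀) (hp : Function.Injective p) (hpr : ∀ i, Pq (p i))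
    (hS₀ : ∀ u ∈ S₀, Pq u) (hd : ∀ i, p i ∉ S₀) :
    nA (AA M S₀) (fun u l => wo M S₀ u * lb3 S₀ (p l) u)
      (Pool.Agent.Y703.XK.ext fun e : prs ι => cs (p e.1.1) (p e.1.2)) =
      3 * nS3 M (S₀ ∪ univ.image p) := by
  have h1 : Nat.card {y : ZMod 3 × (↥(S₀ ∪ univ.image p) → ZMod 3) //
      ∀ π : ↥(S₀ ∪ univ.image p), ∑ ρ : ↥(S₀ ∪ univ.image p), wt M ρ * cs π ρ * (y.2 ρ - y.2 π) =
      cs π 3 * y.2 π} = 3 * nS3 M (S₀ ∪ univ.image p) := by
    have e : {y : ZMod 3 × (↥(S₀ ∪ univ.image p) → ZMod 3) //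
      ∀ π : ↥(S₀ ∪ univ.image p), ∑ ρ : ↥(S₀ ∪ univ.image p), wt M ρ * cs π ρ * (y.2 ρ - y.2 π) =
      cs π 3 * y.2 π} ≃ ZMod 3 × {v : ↥(S₀ ∪ univ.image p) → ZMod 3 //
        ∀ π : ↥(S₀ ∪ univ.image p), ∑ ρ : ↥(S₀ ∪ univ.image p), wt M ρ * cs π ρ * (v ρ - v π) =
      cs π 3 * v π} :=
      { toFun := fun y => (y.1.1, ⟨y.1.2, y.2⟩)
        invFun := fun z => ⟨(z.1, z.2.1), z.2.2⟩
        left_inv := fun _ => rfl
        right_inv := fun _ => rfl }
    rw [Nat.card_congr e, Nat.card_prod, Nat.card_zmod]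
    rfl
  rw [← h1]
  unfold nA
  refine (Nat.card_congr (Equiv.subtypeEquiv (fo hp hd) fun y => ?_)).symm
  rw [sol_iff hM hp hpr hS₀ hd]
  exact (sys_iff hS₀ y.1 _ _ _ _ rfl (fun u => rfl) (fun l => rfl)).symm

theorem gr3_iff (hM : M ⊆ S₀) (hp : Function.Injective p) (hpr : ∀ i, Pq (p i))
    (hS₀ : ∀ u ∈ S₀, Pq u) (hd : ∀ i, p i ∉ S₀) (r : ℕ) :
    Gr3 r M (S₀ ∪ univ.image p) ↔ nA (AA M S₀) (fun u l => wo M S₀ u * lb3 S₀ (p l) u)
      (Pool.Agent.Y703.XK.ext fun e : prs ι => cs (p e.1.1) (p e.1.2)) = 3 ^ (r + 1) := by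
  rw [nA_eq hM hp hpr hS₀ hd, pow_succ']
  unfold Gr3
  constructor
  · intro h
    rw [h]
  · intro h
    exact Nat.eq_of_mul_eq_mul_left (by norm_num) h

end one

/-- **The count in a box.** -/
theorem t_BOXL : S_BOXL := by
  intro hEQ hLA r ι _ _ C X κ M S₀ hM hκ hCX hHB hS₀ hC hdis hcard
  obtain ⟨cc, hcc⟩ : ∃ cc : ℝ, cc = 3 ^ (r + 1) * (3 ^ (S₀.card + 1) / 3 ^ Fintype.card ι) :=
    ⟨_, rfl⟩
  obtain ⟨R, hR⟩ : ∃ R : ℝ, R = 3 ^ (prs ι).card * (κ * ∏ j, (X j : ℝ)) := ⟨_, rfl⟩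
  have hcc0 : 0 ≤ cc := by rw [hcc]; positivity
  have hR0 : 0 ≤ R := by
    rw [hR]
    exact mul_nonneg (by positivity)
      (mul_nonneg hκ (Finset.prod_nonneg fun j _ => by positivity))
  have hco : Fintype.card (Option S₀) = S₀.card + 1 := by
    rw [Fintype.card_option, Fintype.card_coe]
  -- facts on tuples
  have hinj : ∀ p ∈ Fintype.piFinset C, Function.Injective p := by
    intro p hp i j hij
    rw [Fintype.mem_piFinset] at hp
    by_contra hne
    have h1 := Finset.disjoint_left.1 (hdis i j hne) (hp i)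
    rw [hij] at h1
    exact h1 (hp j)
  have hd : ∀ p ∈ Fintype.piFinset C, ∀ i, p i ∉ S₀ := by
    intro p hp i
    rw [Fintype.mem_piFinset] at hp
    exact (hC i _ (hp i)).2
  have hpr : ∀ p ∈ Fintype.piFinset C, ∀ i, Pq (p i) := by
    intro p hp i
    rw [Fintype.mem_piFinset] at hp
    exact (hC i _ (hp i)).1
  -- the part with given labels
  have h1 : ∀ β : ι → Option S₀ → ZMod 3, LN3 S₀ β →
      |(((Fintype.piFinset C).filter fun p => (fun i => lb3 S₀ (p i)) = β ∧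
          Gr3 r M (S₀ ∪ univ.image p)).card : ℝ) -
        cr r * (((Fintype.piFinset C).filter fun p => (fun i => lb3 S₀ (p i)) = β).card : ℝ)| ≤
      cc * (((Fintype.piFinset C).filter fun p => (fun i => lb3 S₀ (p i)) = β).card : ℝ) + R := by
    intro β hβ
    obtain ⟨C', hC'⟩ : ∃ C' : ι → Finset Ei, C' = fun i => (C i).filter fun q => lb3 S₀ q = β i :=
      ⟨_, rfl⟩
    have hpi : (Fintype.piFinset C).filter (fun p => (fun i => lb3 S₀ (p i)) = β) =
        Fintype.piFinset C' := by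
      ext p
      simp only [Finset.mem_filter, Fintype.mem_piFinset, hC']
      constructor
      · rintro ⟨h2, h3⟩ i
        exact ⟨h2 i, congrFun h3 i⟩
      · intro h2
        exact ⟨fun i => (h2 i).1, funext fun i => (h2 i).2⟩
    have h2 := hLA r (Option S₀) ι (AA M S₀) (fun u l => wo M S₀ u * β l u)
      (by rw [hco]; exact hcard)
      (by
        intro u v
        rcases u with _ | u <;> rcases v with _ | v
        · rfl
        · rfl
        · rfl
        · simp only [AA]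
          rw [cs_symm (hS₀ u u.2) (hS₀ v v.2), mul_comm (wt M u) (wt M v)])
      (fun w hw => by
        obtain ⟨u, hu⟩ := hw
        obtain ⟨k, hk⟩ := hβ (fun u => w u * wo M S₀ u) ⟨u, mul_ne_zero hu (wo_ne M S₀ u)⟩
        refine ⟨k, fun h0 => hk ?_⟩
        rw [← h0]
        exact Finset.sum_congr rfl fun u _ => mul_assoc _ _ _)
    obtain ⟨Q, hQ⟩ : ∃ Q : (prs ι → ZMod 3) → Prop, Q = fun α =>
        nA (AA M S₀) (fun u l => wo M S₀ u * β l u)
          (Pool.Agent.Y703.XK.ext α) = 3 ^ (r + 1) := ⟨_, rfl⟩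
    have h3 := hEQ ι C' X κ hκ
      (fun i => (Finset.card_le_card (by rw [hC']; exact Finset.filter_subset _ _)).trans (hCX i))
      (by rw [hC']; exact HB_sub hHB fun i q => lb3 S₀ q = β i) Q
    have h4 : ((Fintype.piFinset C).filter fun p => (fun i => lb3 S₀ (p i)) = β ∧
        Gr3 r M (S₀ ∪ univ.image p)) = ((Fintype.piFinset C').filter fun p =>
          Q fun e => cs (p e.1.1) (p e.1.2)) := by
      rw [← hpi, Finset.filter_filter]
      refine Finset.filter_congr fun p hp => ?_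
      refine and_congr_right fun hl => ?_
      rw [gr3_iff hM (hinj p hp) (hpr p hp) hS₀ (hd p hp)]
      subst hl
      rw [hQ]
    have h5 : (((Fintype.piFinset C').card : ℕ) : ℝ) = ∏ j, ((C' j).card : ℝ) := by
      rw [Fintype.card_piFinset]
      push_cast
      rfl
    rw [h4, hpi, h5]
    rw [hco, ← hcc] at h2
    rw [← hR] at h3
    obtain ⟨n, hn⟩ : ∃ n : ℝ, n = (((Fintype.piFinset C').filter fun p =>
          Q fun e => cs (p e.1.1) (p e.1.2)).card : ℝ) := ⟨_, rfl⟩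
    obtain ⟨q, hq⟩ : ∃ q : ℝ, q = ((univ.filter Q).card : ℝ) / 3 ^ (prs ι).card := ⟨_, rfl⟩
    obtain ⟨P, hP⟩ : ∃ P : ℝ, P = ∏ j, ((C' j).card : ℝ) := ⟨_, rfl⟩
    have hP0 : 0 ≤ P := by
      rw [hP]
      exact Finset.prod_nonneg fun j _ => by positivity
    have h2' : |q - cr r| ≤ cc := by
      have e : (univ.filter Q) = (univ.filter fun α : prs ι → ZMod 3 =>
          nA (AA M S₀) (fun u l => wo M S₀ u * β l u)
            (Pool.Agent.Y703.XK.ext α) = 3 ^ (r + 1)) := by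
        ext α
        rw [Finset.mem_filter, Finset.mem_filter, hQ]
      rw [hq, e]
      exact h2
    rw [← hn, ← hq, ← hP] at h3
    rw [← hn, ← hP]
    have h6 : |n - cr r * P| ≤ |n - q * P| + |q - cr r| * P := by
      have h7 : n - cr r * P = (n - q * P) + (q - cr r) * P := by ring
      have h8 : |(q - cr r) * P| = |q - cr r| * P := by rw [abs_mul, abs_of_nonneg hP0]
      rw [h7, ← h8]
      exact abs_add_le _ _
    have h7 : |q - cr r| * P ≤ cc * P := mul_le_mul_of_nonneg_right h2' hP0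
    linarith
  -- sum over the labels
  obtain ⟨LL, hLL⟩ : ∃ LL : Finset (ι → Option S₀ → ZMod 3),
      LL = univ.filter (fun β => LN3 S₀ β) := ⟨_, rfl⟩
  have hfib : ∀ T : (ι → Ei) → Prop,
      (((Fintype.piFinset C).filter fun p => Nd3 S₀ (univ.image p) ∧ T p).card : ℝ) =
      ∑ β ∈ LL, (((Fintype.piFinset C).filter fun p =>
        (fun i => lb3 S₀ (p i)) = β ∧ T p).card : ℝ) := by
    intro T
    rw [Finset.card_eq_sum_card_fiberwise (f := fun (p : ι → Ei) (i : ι) => lb3 S₀ (p i))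
      (t := LL) (by
        intro p hp
        rw [Finset.mem_coe, Finset.mem_filter] at hp
        rw [Finset.mem_coe, hLL, Finset.mem_filter]
        exact ⟨Finset.mem_univ _, nd3_iff.1 hp.2.1⟩)]
    push_cast
    refine Finset.sum_congr rfl fun β hβ => ?_
    rw [hLL, Finset.mem_filter] at hβ
    congr 2
    ext p
    simp only [Finset.mem_filter]
    constructor
    · rintro ⟨⟨h3, h4, h4'⟩, h5⟩
      exact ⟨h3, h5, h4'⟩
    · rintro ⟨h3, h4, h5⟩
      refine ⟨⟨h3, ?_, h5⟩, h4⟩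
      rw [nd3_iff, h4]
      exact hβ.2
  have hf1 := hfib fun p => Gr3 r M (S₀ ∪ univ.image p)
  have hf2 := hfib fun _ => True
  simp only [and_true] at hf2
  rw [← hcc, hf1, hf2, Finset.mul_sum, ← Finset.sum_sub_distrib]
  refine (Finset.abs_sum_le_sum_abs _ _).trans ?_
  refine (Finset.sum_le_sum fun β hβ => h1 β (by
    rw [hLL] at hβ
    exact (Finset.mem_filter.1 hβ).2)).trans ?_
  rw [Finset.sum_add_distrib, ← Finset.mul_sum, Finset.sum_const, nsmul_eq_mul]
  have h5 : ((LL.card : ℕ) : ℝ) ≤ 3 ^ ((S₀.card + 1) * Fintype.card ι) := by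
    have h6 : LL.card ≤ Fintype.card (ι → Option S₀ → ZMod 3) :=
      Finset.card_le_univ _
    rw [Fintype.card_fun, Fintype.card_fun, ZMod.card, hco, ← pow_mul] at h6
    exact_mod_cast h6
  have h6 := mul_le_mul_of_nonneg_right h5 hR0
  rw [pow_add, mul_assoc, ← hR]
  linarith

end Pool.Agent.E8helper56.CTL3
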